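import Pool.Agent.Mob.Stmts

/-! # Metal-insulator transport transition, module ANA: one good annulus -/

set_option autoImplicit false
set_option linter.unusedSectionVars false

open MeasureTheory ProbabilityTheory Function

open scoped ENNReal BigOperators InnerProductSpace

noncomputable section

namespace Pool.Agent.Mob.H94

open Pool.Agent.Anderson Pool.Agent.Loc Pool.Agent.Helper54.Bal Pool.Agent.Mob

variable {d : ℕ}

/-- the geometric resolvent identity with uniform bounds -/
theorem geo_bound {V : Site d → ℝ} {Λ A : Finset (Site d)} {E : ℝ} (hA : A ⊆ Λ)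
    (h : (RM V Λ E).det ≠ 0) (hA' : (RM V A E).det ≠ 0) {x y : Site d} (hx : x ∈ A)
    (hy : y ∈ Λ \ A) {a b : ℝ} (ha : 0 ≤ a) (hb : 0 ≤ b)
    (hab : ∀ u ∈ A, ∀ u' ∈ Λ \ A, hop u u' ≠ 0 → |gr V A E x u| ≤ a ∧ |gr V Λ E u' y| ≤ b) :
    |gr V Λ E x y| ≤ a * b * (2 * d * Λ.card) := by
  rw [geo1 hA h hA' hx hy]
  have h1 : ∀ u ∈ A, ∀ u' ∈ Λ \ A, |gr V A E x u * hop u u' * gr V Λ E u' y| ≤
      a * b * hop u u' := by
    intro u hu u' hu'
    by_cases hh : hop u u' = 0
    · rw [hh]
      simp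
    · obtain ⟨h2, h3⟩ := hab u hu u' hu' hh
      rw [abs_mul, abs_mul, abs_of_nonneg (hop_nonneg u u')]
      have h4 := hop_nonneg u u'
      calc |gr V A E x u| * hop u u' * |gr V Λ E u' y| ≤ a * hop u u' * b := by gcongr
        _ = a * b * hop u u' := by ring
  calc |∑ u ∈ A, ∑ u' ∈ Λ \ A, gr V A E x u * hop u u' * gr V Λ E u' y|
      ≤ ∑ u ∈ A, |∑ u' ∈ Λ \ A, gr V A E x u * hop u u' * gr V Λ E u' y| :=
        Finset.abs_sum_le_sum_abs _ _
    _ ≤ ∑ u ∈ A, ∑ u' ∈ Λ \ A, |gr V A E x u * hop u u' * gr V Λ E u' y| :=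
        Finset.sum_le_sum fun u _ => Finset.abs_sum_le_sum_abs _ _
    _ ≤ ∑ u ∈ A, ∑ u' ∈ Λ \ A, a * b * hop u u' :=
        Finset.sum_le_sum fun u hu => Finset.sum_le_sum fun u' hu' => h1 u hu u' hu'
    _ = ∑ u ∈ A, a * b * ∑ u' ∈ Λ \ A, hop u u' := by
        apply Finset.sum_congr rfl
        intro u _
        rw [Finset.mul_sum]
    _ ≤ ∑ _u ∈ A, a * b * (2 * d) := by
        apply Finset.sum_le_sum
        intro u _
        exact mul_le_mul_of_nonneg_left (sum_hop_le u _) (mul_nonneg ha hb)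
    _ = a * b * (2 * d * A.card) := by
        rw [Finset.sum_const, nsmul_eq_mul]
        ring
    _ ≤ _ := by
        have h5 : (A.card : ℝ) ≤ Λ.card := by exact_mod_cast Finset.card_le_card hA
        have h6 : (0 : ℝ) ≤ 2 * d := by positivity
        exact mul_le_mul_of_nonneg_left (mul_le_mul_of_nonneg_left h5 h6) (mul_nonneg ha hb)

/-- the cell of a site on the sphere -/
theorem exists_cell {x v : Site d} {ℓ i : ℕ} (hℓ : 1 ≤ ℓ) (h : sd x v = 10 * i * ℓ + 1) :
    ∃ c ∈ cells x ℓ i, v ∈ box c ℓ := by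
  have hℓ' : (0 : ℤ) < ℓ := by exact_mod_cast hℓ
  have h1 : ∀ j, |x j - v j| ≤ 10 * i * ℓ + 1 := by
    intro j
    have := sd_le_iff.1 (le_refl (sd x v)) j
    rw [h] at this
    exact_mod_cast this
  -- the coordinates of the cell
  let k : Site d := fun j => (v j - x j) / (ℓ : ℤ)
  have hk1 : ∀ j, (ℓ : ℤ) * k j ≤ v j - x j := fun j => Int.mul_ediv_self_le hℓ'.ne'
  have hk2 : ∀ j, v j - x j < (ℓ : ℤ) * k j + ℓ := fun j => by
    have := Int.lt_mul_ediv_self_add (x := v j - x j) hℓ'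
    exact this
  refine ⟨fun j => x j + ℓ * k j, ?_, ?_⟩
  · unfold cells
    rw [Finset.mem_image]
    refine ⟨k, ?_, rfl⟩
    rw [Finset.mem_filter, mem_box]
    constructor
    · rw [sd_le_iff]
      intro j
      rw [Pi.zero_apply, zero_sub, abs_neg, abs_le]
      obtain ⟨h2, h3⟩ := abs_le.1 (h1 j)
      have h4 := hk1 j
      have h5 := hk2 j
      push_cast
      constructor
      · by_contra hc
        push Not at hc
        have h6 : k j ≤ -(10 * i + 1) - 1 := by omega
        have h7 : (ℓ : ℤ) * k j ≤ ℓ * (-(10 * i + 1) - 1) := mul_le_mul_of_nonneg_left h6 hℓ'.le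
        nlinarith
      · by_contra hc
        push Not at hc
        have h6 : 10 * (i : ℤ) + 2 ≤ k j := by omega
        have h7 : (ℓ : ℤ) * (10 * i + 2) ≤ ℓ * k j := mul_le_mul_of_nonneg_left h6 hℓ'.le
        nlinarith
    · -- a coordinate where the distance is attained
      by_contra hc
      push Not at hc
      have h2 : ∀ j, |k j| ≤ 10 * (i : ℤ) - 1 := by
        intro j
        have h3 : sd 0 k ≤ 10 * i - 1 := by omega
        have h4 := sd_le_iff.1 h3 j
        rw [Pi.zero_apply, zero_sub, abs_neg] at h4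
        have h5 : ((10 * i - 1 : ℕ) : ℤ) = 10 * (i : ℤ) - 1 := by omega
        rw [h5] at h4
        exact h4
      have h3 : sd x v ≤ 10 * i * ℓ := by
        rw [sd_le_iff]
        intro j
        obtain ⟨h4, h5⟩ := abs_le.1 (h2 j)
        have h6 := hk1 j
        have h7 := hk2 j
        have h8 : (ℓ : ℤ) * (-(10 * (i : ℤ) - 1)) ≤ ℓ * k j := mul_le_mul_of_nonneg_left h4 hℓ'.le
        have h9 : (ℓ : ℤ) * k j ≤ ℓ * (10 * (i : ℤ) - 1) := mul_le_mul_of_nonneg_left h5 hℓ'.le
        rw [abs_le]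
        push_cast
        constructor <;> nlinarith
      omega
  · rw [mem_box, sd_le_iff]
    intro j
    have h4 := hk1 j
    have h5 := hk2 j
    rw [abs_le]
    constructor <;> linarith

/-- the centres of the cells are not far -/
theorem sd_cell {x c : Site d} {ℓ i : ℕ} (hc : c ∈ cells x ℓ i) :
    sd x c ≤ ℓ * (10 * i + 1) := by
  unfold cells at hc
  rw [Finset.mem_image] at hc
  obtain ⟨k, hk, rfl⟩ := hc
  rw [Finset.mem_filter, mem_box, sd_le_iff] at hk
  rw [sd_le_iff]
  intro j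
  have h1 := hk.1 j
  rw [Pi.zero_apply, zero_sub, abs_neg] at h1
  have h2 : x j - (x j + (ℓ : ℤ) * k j) = -((ℓ : ℤ) * k j) := by ring
  rw [h2, abs_neg, abs_mul, Nat.abs_cast]
  push_cast at h1 ⊢
  exact mul_le_mul_of_nonneg_left h1 (by positivity)

/-- ANA -/
theorem ana : AnaStmt := by
  intro d V E A τ m ℓ i x u hℓ hi him hA hτ hxu hdet hdeti hτi hτL hcell
  obtain ⟨L, hL⟩ : ∃ L, L = 10 * (m + 1) * ℓ := ⟨_, rfl⟩
  rw [← hL] at hxu hdet hτL ⊢
  have hiL : 10 * i * ℓ + 4 * ℓ < L := by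
    rw [hL]
    have h1 : 10 * i * ℓ ≤ 10 * m * ℓ := by
      have := Nat.mul_le_mul_right ℓ (Nat.mul_le_mul_left 10 him)
      exact this
    have h2 : 10 * (m + 1) * ℓ = 10 * m * ℓ + 10 * ℓ := by ring
    rw [h2]
    omega
  have hcard : ((box x L).card : ℝ) = (20 * (m + 1) * ℓ + 1) ^ d := by
    rw [card_box, hL]
    push_cast
    congr 1
    ring
  have hnn : (0 : ℝ) ≤ 2 * d * (box x L).card := by positivity
  have hsub : box x (10 * i * ℓ) ⊆ box x L := box_mono x (by omega)
  have hxA : x ∈ box x (10 * i * ℓ) := by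
    rw [mem_box, sd_self]
    omega
  have huA : u ∈ box x L \ box x (10 * i * ℓ) := by
    rw [Finset.mem_sdiff, mem_box, mem_box]
    omega
  have key : |gr V (box x L) E x u| ≤ τ * (A * τ * (2 * d * (box x L).card)) *
      (2 * d * (box x L).card) := by
    apply geo_bound hsub hdet hdeti hxA huA hτ (mul_nonneg (mul_nonneg hA hτ) hnn)
    intro v hv v' hv' hh
    refine ⟨hτi v, ?_⟩
    rw [mem_box] at hv
    rw [Finset.mem_sdiff, mem_box, mem_box] at hv'
    have h1 := sd_of_hop hh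
    have h2 := sd_triangle x v v'
    have h3 : sd x v' = 10 * i * ℓ + 1 := by omega
    obtain ⟨c, hc, hvc⟩ := exists_cell hℓ h3
    obtain ⟨g1, g2⟩ := hcell c hc
    rw [mem_box] at hvc
    have h4 := sd_cell hc
    have h5 : ℓ * (10 * i + 1) = 10 * i * ℓ + ℓ := by ring
    have hBsub : box c (3 * ℓ) ⊆ box x L := by
      intro w hw
      rw [mem_box] at hw ⊢
      have := sd_triangle x c w
      omega
    apply geo_bound hBsub hdet g1
    · rw [mem_box]
      omega
    · rw [Finset.mem_sdiff, mem_box, mem_box]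
      refine ⟨by omega, fun h => ?_⟩
      have := sd_triangle x c u
      omega
    · exact hA
    · exact hτ
    · intro w hw w' hw' hhw
      refine ⟨?_, hτL w'⟩
      rw [Finset.mem_sdiff, mem_box, mem_box] at hw'
      have h6 := sd_of_hop hhw
      have h7 := sd_triangle c w w'
      have h8 := sd_triangle c v' w
      apply g2 v' (by rw [mem_box]; exact hvc) w hw
      omega
  refine key.trans (le_of_eq ?_)
  rw [hcard]
  ring

end Pool.Agent.Mob.H94
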