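import Pool.Agent.Helper94_Mob.Ana

/-! # Metal-insulator transport transition, module ANB: independence of the annuli -/

set_option autoImplicit false
set_option linter.unusedSectionVars false

open MeasureTheory ProbabilityTheory Function

open scoped ENNReal BigOperators InnerProductSpace

noncomputable section

namespace Pool.Agent.Mob.H94

open Pool.Agent.Anderson Pool.Agent.Loc Pool.Agent.Helper54.Bal Pool.Agent.Mob

variable {d : ℕ}

theorem cellGood_congr {V V' : Site d → ℝ} {c : Site d} {ℓ : ℕ} {A E : ℝ}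
    (h : ∀ x ∈ box c (3 * ℓ), V x = V' x) : CellGood V c ℓ A E ↔ CellGood V' c ℓ A E := by
  unfold CellGood
  rw [RM_congr h]
  simp only [gr_congr h]

theorem measurable_cellGood (c : Site d) (ℓ : ℕ) (A E : ℝ) :
    MeasurableSet {V : Site d → ℝ | CellGood V c ℓ A E} := by
  have h : {V : Site d → ℝ | CellGood V c ℓ A E} =
      {V | (RM V (box c (3 * ℓ)) E).det ≠ 0} ∩
        ⋂ x ∈ box c ℓ, ⋂ y ∈ box c (3 * ℓ), {V | ℓ ≤ sd x y → |gr V (box c (3 * ℓ)) E x y| ≤ A} := by
    ext V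
    simp only [CellGood, Set.mem_ofPred_eq, Set.mem_inter_iff, Set.mem_iInter]
  rw [h]
  apply MeasurableSet.inter
  · exact (measurableSet_eq_fun (continuous_det _ E).measurable measurable_const).compl
  · apply Finset.measurableSet_biInter
    intro x _
    apply Finset.measurableSet_biInter
    intro y _
    by_cases hxy : ℓ ≤ sd x y
    · simp only [hxy, true_imp_iff]
      exact measurableSet_le (measurable_gr _ E x y).abs measurable_const
    · simp only [hxy, false_imp_iff]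
      exact MeasurableSet.univ

/-- the annulus is bad -/
def badA (x : Site d) (ℓ i : ℕ) (A E : ℝ) : Set (Site d → ℝ) :=
  {V | ∃ c ∈ cells x ℓ i, ¬ CellGood V c ℓ A E}

theorem measurable_badA (x : Site d) (ℓ i : ℕ) (A E : ℝ) : MeasurableSet (badA x ℓ i A E) := by
  have h : badA x ℓ i A E = ⋃ c ∈ cells x ℓ i, {V : Site d → ℝ | CellGood V c ℓ A E}ᶜ := by
    ext V
    simp only [badA, Set.mem_ofPred_eq, Set.mem_iUnion, Set.mem_compl_iff, exists_prop]
  rw [h]
  apply Finset.measurableSet_biUnion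
  intro c _
  exact (measurable_cellGood c ℓ A E).compl

/-- the shell which contains the cells -/
def shell (x : Site d) (ℓ i : ℕ) : Finset (Site d) :=
  box x (10 * i * ℓ + 4 * ℓ) \ box x (10 * i * ℓ - 3 * ℓ - 1)

theorem le_sd_cell {x c : Site d} {ℓ i : ℕ} (hℓ : 1 ≤ ℓ) (hi : 1 ≤ i) (hc : c ∈ cells x ℓ i) :
    10 * i * ℓ ≤ sd x c := by
  unfold cells at hc
  rw [Finset.mem_image] at hc
  obtain ⟨k, hk, rfl⟩ := hc
  rw [Finset.mem_filter] at hk
  have hd : NeZero d := by
    constructor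
    rintro rfl
    have h1 : sd (0 : Site 0) k = 0 := by
      unfold sd
      simp
    rw [h1] at hk
    omega
  obtain ⟨j, hj⟩ := exists_sd_eq (0 : Site d) k
  rw [Pi.zero_apply, zero_sub, abs_neg] at hj
  have h1 := sd_le_iff.1 (le_refl (sd x (fun j => x j + (ℓ : ℤ) * k j))) j
  have h2 : x j - (x j + (ℓ : ℤ) * k j) = -((ℓ : ℤ) * k j) := by ring
  rw [h2, abs_neg, abs_mul, Nat.abs_cast, ← hj] at h1
  have h3 : ℓ * sd 0 k ≤ sd x (fun j => x j + (ℓ : ℤ) * k j) := by exact_mod_cast h1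
  calc 10 * i * ℓ = ℓ * (10 * i) := by ring
    _ ≤ ℓ * sd 0 k := Nat.mul_le_mul_left _ hk.2
    _ ≤ _ := h3

theorem cell_sub_shell {x c : Site d} {ℓ i : ℕ} (hℓ : 1 ≤ ℓ) (hi : 1 ≤ i)
    (hc : c ∈ cells x ℓ i) : box c (3 * ℓ) ⊆ shell x ℓ i := by
  intro v hv
  have h1 := le_sd_cell hℓ hi hc
  have h2 := sd_cell hc
  have h3 : ℓ * (10 * i + 1) = 10 * i * ℓ + ℓ := by ring
  rw [mem_box] at hv
  have h4 := sd_triangle x c v
  have h5 := sd_triangle x v c
  rw [sd_comm v c] at h5
  have h6 : 10 * ℓ ≤ 10 * i * ℓ := Nat.mul_le_mul_right ℓ (by omega)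
  unfold shell
  rw [Finset.mem_sdiff, mem_box, mem_box]
  omega

theorem only_badA {x : Site d} {ℓ i : ℕ} (hℓ : 1 ≤ ℓ) (hi : 1 ≤ i) (A E : ℝ) :
    Only ((badA x ℓ i A E).indicator 1) (shell x ℓ i) := by
  apply only_indicator
  intro V V' h
  unfold badA
  simp only [Set.mem_ofPred_eq]
  apply exists_congr
  intro c
  apply and_congr_right
  intro hc
  rw [cellGood_congr (fun y hy => h y (cell_sub_shell hℓ hi hc hy))]

theorem card_cells (x : Site d) (ℓ i : ℕ) : (cells x ℓ i).card ≤ (20 * i + 3) ^ d := by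
  unfold cells
  refine (Finset.card_image_le).trans ((Finset.card_filter_le _ _).trans (le_of_eq ?_))
  rw [card_box]
  congr 1
  ring

section prob
variable {ν : Measure ℝ} [IsProbabilityMeasure ν]

theorem marg_badA {x : Site d} {ℓ i : ℕ} (hℓ : 1 ≤ ℓ) (hi : 1 ≤ i) {A E p : ℝ} (hp : 0 ≤ p)
    (h : ∀ c : Site d, PL ν (box c (3 * ℓ)) {V | ¬ CellGood V c ℓ A E} ≤ ENNReal.ofReal p) :
    (∫⋯∫⁻_(shell x ℓ i), (badA x ℓ i A E).indicator 1 ∂(fun _ => ν)) 0 ≤
      ENNReal.ofReal ((20 * i + 3) ^ d * p) := by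
  have hm : ∀ c : Site d, MeasurableSet {V : Site d → ℝ | ¬ CellGood V c ℓ A E} :=
    fun c => (measurable_cellGood c ℓ A E).compl
  have h1 : (badA x ℓ i A E).indicator (1 : (Site d → ℝ) → ℝ≥0∞) ≤
      fun V => ∑ c ∈ cells x ℓ i, ({V | ¬ CellGood V c ℓ A E} : Set (Site d → ℝ)).indicator 1 V := by
    intro V
    by_cases hV : V ∈ badA x ℓ i A E
    · rw [Set.indicator_of_mem hV]
      obtain ⟨c, hc, hcV⟩ := hV
      have h2 : ({V | ¬ CellGood V c ℓ A E} : Set (Site d → ℝ)).indicator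
          (1 : (Site d → ℝ) → ℝ≥0∞) V = 1 := by
        rw [Set.indicator_of_mem]
        · rfl
        · exact hcV
      rw [Pi.one_apply, ← h2]
      exact Finset.single_le_sum (f := fun c => ({V | ¬ CellGood V c ℓ A E} :
        Set (Site d → ℝ)).indicator (1 : (Site d → ℝ) → ℝ≥0∞) V) (fun _ _ => zero_le) hc
    · rw [Set.indicator_of_notMem hV]
      exact zero_le
  refine (lmarginal_mono h1 0).trans ?_
  rw [marg_sum _ (fun c _ => measurable_one.indicator (hm c))]
  have h3 : ∀ c ∈ cells x ℓ i, (∫⋯∫⁻_(shell x ℓ i), ({V | ¬ CellGood V c ℓ A E} :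
      Set (Site d → ℝ)).indicator 1 ∂(fun _ => ν)) 0 ≤ ENNReal.ofReal p := by
    intro c hc
    rw [marg_subset (measurable_one.indicator (hm c)) _ (cell_sub_shell hℓ hi hc),
      ← PL_apply _ (hm c)]
    · exact h c
    · apply only_indicator
      intro V V' hVV
      simp only [Set.mem_ofPred_eq]
      rw [cellGood_congr hVV]
  refine (Finset.sum_le_sum h3).trans ?_
  rw [Finset.sum_const, nsmul_eq_mul, ENNReal.ofReal_mul (by positivity)]
  gcongr
  rw [← ENNReal.ofReal_natCast]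
  apply ENNReal.ofReal_le_ofReal
  exact_mod_cast card_cells x ℓ i

/-- all annuli up to `j` are bad -/
def prodA (x : Site d) (ℓ j : ℕ) (A E : ℝ) (V : Site d → ℝ) : ℝ≥0∞ :=
  ∏ i ∈ Finset.Icc 1 j, (badA x ℓ i A E).indicator 1 V

theorem prodA_succ (x : Site d) (ℓ j : ℕ) (A E : ℝ) (V : Site d → ℝ) :
    prodA x ℓ (j + 1) A E V = prodA x ℓ j A E V * (badA x ℓ (j + 1) A E).indicator 1 V := by
  unfold prodA
  rw [Finset.prod_Icc_succ_top (by omega)]

theorem measurable_prodA (x : Site d) (ℓ j : ℕ) (A E : ℝ) : Measurable (prodA x ℓ j A E) := by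
  unfold prodA
  apply Finset.measurable_fun_prod
  intro i _
  exact measurable_one.indicator (measurable_badA x ℓ i A E)

theorem only_prodA {x : Site d} {ℓ : ℕ} (hℓ : 1 ≤ ℓ) (j : ℕ) (A E : ℝ) :
    Only (prodA x ℓ j A E) (box x (10 * j * ℓ + 4 * ℓ)) := by
  intro V V' h
  unfold prodA
  apply Finset.prod_congr rfl
  intro i hi
  rw [Finset.mem_Icc] at hi
  apply only_badA hℓ hi.1 A E
  intro y hy
  apply h
  unfold shell at hy
  rw [Finset.mem_sdiff, mem_box] at hy
  rw [mem_box]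
  have h1 : 10 * i * ℓ ≤ 10 * j * ℓ := Nat.mul_le_mul_right ℓ (by omega)
  omega

theorem marg_prodA {x : Site d} {ℓ m : ℕ} (hℓ : 1 ≤ ℓ) {A E p : ℝ} (hp : 0 ≤ p)
    (h : ∀ c : Site d, PL ν (box c (3 * ℓ)) {V | ¬ CellGood V c ℓ A E} ≤ ENNReal.ofReal p)
    (j : ℕ) (hj : j ≤ m) :
    (∫⋯∫⁻_(box x (10 * j * ℓ + 4 * ℓ)), prodA x ℓ j A E ∂(fun _ => ν)) 0 ≤
      ENNReal.ofReal ((20 * m + 23) ^ d * p) ^ j := by
  induction j with
  | zero =>
    rw [pow_zero]
    apply marg_le_const
    intro V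
    unfold prodA
    simp
  | succ j ih =>
    have e1 : prodA x ℓ (j + 1) A E = fun V => prodA x ℓ j A E V *
        (badA x ℓ (j + 1) A E).indicator 1 V := by
      funext V
      exact prodA_succ x ℓ j A E V
    have h1 : 10 * (j + 1) * ℓ = 10 * j * ℓ + 10 * ℓ := by ring
    rw [e1, marg_mul (measurable_prodA x ℓ j A E)
      (measurable_one.indicator (measurable_badA x ℓ (j + 1) A E)) (only_prodA hℓ j A E)
      (only_badA hℓ (by omega) A E), pow_succ]
    · refine mul_le_mul' (ih (by omega)) ((marg_badA hℓ (by omega) hp h).trans ?_)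
      apply ENNReal.ofReal_le_ofReal
      apply mul_le_mul_of_nonneg_right _ hp
      apply pow_le_pow_left₀ (by positivity)
      have : ((j + 1 : ℕ) : ℝ) ≤ m := by exact_mod_cast hj
      linarith
    · rw [Finset.disjoint_left]
      intro v hv hv'
      unfold shell at hv'
      rw [mem_box] at hv
      rw [Finset.mem_sdiff, mem_box, mem_box] at hv'
      omega
    · intro v hv
      rw [Finset.mem_union] at hv
      rw [mem_box]
      rcases hv with hv | hv
      · rw [mem_box] at hv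
        omega
      · unfold shell at hv
        rw [Finset.mem_sdiff, mem_box] at hv
        exact hv.1

end prob

/-- ANB -/
theorem anb : AnbStmt := by
  intro d ν _ E A p m ℓ x hℓ hp h
  have hset : {V : Site d → ℝ | ∀ i : ℕ, 1 ≤ i → i ≤ m → ∃ c ∈ cells x ℓ i,
      ¬ CellGood V c ℓ A E} = ⋂ i ∈ Finset.Icc 1 m, badA x ℓ i A E := by
    ext V
    simp only [Set.mem_ofPred_eq, Set.mem_iInter, Finset.mem_Icc, badA, and_imp]
  have hmeas : MeasurableSet (⋂ i ∈ Finset.Icc 1 m, badA x ℓ i A E) := by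
    apply Finset.measurableSet_biInter
    intro i _
    exact measurable_badA x ℓ i A E
  have hind : (⋂ i ∈ Finset.Icc 1 m, badA x ℓ i A E).indicator (1 : (Site d → ℝ) → ℝ≥0∞) =
      prodA x ℓ m A E := by
    funext V
    unfold prodA
    by_cases hV : V ∈ ⋂ i ∈ Finset.Icc 1 m, badA x ℓ i A E
    · rw [Set.indicator_of_mem hV]
      symm
      apply Finset.prod_eq_one
      intro i hi
      rw [Set.indicator_of_mem]
      · rfl
      · exact Set.mem_iInter₂.1 hV i hi
    · rw [Set.indicator_of_notMem hV]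
      symm
      rw [Set.mem_iInter₂] at hV
      push Not at hV
      obtain ⟨i, hi, hVi⟩ := hV
      exact Finset.prod_eq_zero hi (Set.indicator_of_notMem hVi _)
  have hsub : box x (10 * m * ℓ + 4 * ℓ) ⊆ box x (10 * (m + 1) * ℓ) := by
    apply box_mono
    have h1 : 10 * (m + 1) * ℓ = 10 * m * ℓ + 10 * ℓ := by ring
    omega
  rw [hset, PL_apply _ hmeas, hind, marg_subset (measurable_prodA x ℓ m A E)
    (only_prodA hℓ m A E) hsub, ENNReal.ofReal_pow (by positivity)]
  exact marg_prodA hℓ hp h m le_rfl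

end Pool.Agent.Mob.H94
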